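import Pool.Agent.Y318.Adm.Stm

set_option autoImplicit false

/-!
# Bijective holomorphic self-maps of the disc from multiplicative conditions (job 885, project Y318-ADM)
-/

open Metric Set Filter Topology

namespace Pool.Agent.Y710.Adm

open Pool.Agent.Y318.Adm

theorem hd : S_HD := by
  intro h hdiff hinj hder h0 hinv hmul hcomp
  set D : Set ℂ := ball (0:ℂ) 1 with hD
  have hDo : IsOpen D := isOpen_ball
  have han : AnalyticOnNhd ℂ h D := hdiff.analyticOnNhd hDo
  have hpre : IsPreconnected D := (convex_ball (0:ℂ) 1).isPreconnected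
  have hz0 : (0:ℂ) ∈ D := by rw [hD, mem_ball_zero_iff]; simp
  have hz1 : (1/2:ℂ) ∈ D := by rw [hD, mem_ball_zero_iff]; norm_num
  have hopen : ∀ s ⊆ D, IsOpen s → IsOpen (h '' s) := by
    rcases han.is_constant_or_isOpen hpre with ⟨w, hw⟩ | h1
    · exfalso
      have h2 := hinj hz0 hz1 ((hw 0 hz0).trans (hw (1/2) hz1).symm)
      norm_num at h2
    · exact h1
  set Ω : Set ℂ := h '' D with hΩ
  have hΩo : IsOpen Ω := hopen D le_rfl hDo
  obtain ⟨ε, hε, hεΩ⟩ := Metric.isOpen_iff.1 hΩo 0 h0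
  -- bounded
  have hbd : ∀ c ∈ Ω, ‖c‖ ≤ 1 / ε := by
    intro c hc
    by_cases hc0 : c = 0
    · rw [hc0, norm_zero]; positivity
    have h1 : c⁻¹ ∉ Ω := by
      rcases hinv c c⁻¹ (mul_inv_cancel₀ hc0) with h2 | h2
      · exact absurd hc h2
      · exact h2
    have h2 : ε ≤ ‖c⁻¹‖ := by
      by_contra h3
      exact h1 (hεΩ (mem_ball_zero_iff.2 (not_le.1 h3)))
    rw [norm_inv] at h2
    have hcp : 0 < ‖c‖ := norm_pos_iff.2 hc0
    rw [le_div_iff₀ hε]
    calc ‖c‖ * ε ≤ ‖c‖ * ‖c‖⁻¹ := mul_le_mul_of_nonneg_left h2 hcp.le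
      _ = 1 := mul_inv_cancel₀ hcp.ne'
  have hpow : ∀ c ∈ Ω, ∀ n : ℕ, c ^ (n + 1) ∈ Ω := by
    intro c hc n
    induction n with
    | zero => simpa using hc
    | succ n ih =>
      rw [pow_succ]
      exact hmul _ ih _ hc
  have hpow' : ∀ c ∉ Ω, ∀ n : ℕ, c ^ (n + 1) ∉ Ω := by
    intro c hc n
    induction n with
    | zero => simpa using hc
    | succ n ih =>
      rw [pow_succ]
      exact hcomp _ ih _ hc
  have hle : ∀ c ∈ Ω, ‖c‖ ≤ 1 := by
    intro c hc
    by_contra h1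
    push Not at h1
    obtain ⟨n, hn⟩ := pow_unbounded_of_one_lt (1 / ε) h1
    have h2 := hbd _ (hpow c hc n)
    rw [norm_pow, pow_succ] at h2
    have h3 : 0 ≤ ‖c‖ ^ n := by positivity
    nlinarith
  have hlt : Ω ⊆ D := by
    intro c hc
    rw [hD, mem_ball_zero_iff]
    refine lt_of_le_of_ne (hle c hc) ?_
    intro h1
    obtain ⟨δ, hδ, hδΩ⟩ := Metric.isOpen_iff.1 hΩo c hc
    have h2 : (1 + (δ / 2 : ℝ)) * c ∈ Ω := by
      apply hδΩ
      rw [mem_ball, dist_eq_norm]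
      have : (1 + ((δ / 2 : ℝ) : ℂ)) * c - c = ((δ / 2 : ℝ) : ℂ) * c := by ring
      rw [this, norm_mul, h1, mul_one, Complex.norm_real, Real.norm_eq_abs, abs_of_pos (by positivity)]
      linarith
    have h3 := hle _ h2
    rw [norm_mul, h1, mul_one] at h3
    have h4 : ‖(1 + ((δ / 2 : ℝ) : ℂ))‖ = 1 + δ / 2 := by
      have : (1 + ((δ / 2 : ℝ) : ℂ)) = ((1 + δ / 2 : ℝ) : ℂ) := by push_cast; ring
      rw [this, Complex.norm_real, Real.norm_eq_abs, abs_of_pos (by positivity)]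
    rw [h4] at h3
    linarith
  have hge : D ⊆ Ω := by
    intro c hc
    by_contra h1
    rw [hD, mem_ball_zero_iff] at hc
    obtain ⟨n, hn⟩ := exists_pow_lt_of_lt_one hε hc
    apply hpow' c h1 n
    apply hεΩ
    rw [mem_ball_zero_iff, norm_pow, pow_succ]
    have h3 : 0 ≤ ‖c‖ ^ n := by positivity
    nlinarith [norm_nonneg c]
  have hmaps : MapsTo h D D := fun z hz => hlt ⟨z, hz, rfl⟩
  set t : ℂ → ℂ := Function.invFunOn h D with ht
  have hts : ∀ z ∈ D, t (h z) = z := fun z hz => hinj.leftInvOn_invFunOn hz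
  have hst : ∀ w ∈ D, h (t w) = w := fun w hw => Function.invFunOn_eq (hge hw)
  have htm : MapsTo t D D := fun w hw => Function.invFunOn_mem (hge hw)
  have htc : ∀ w ∈ D, ContinuousAt t w := by
    intro w hw
    rw [ContinuousAt, tendsto_def]
    intro U hU
    obtain ⟨V, hVU, hVo, hV⟩ := _root_.mem_nhds_iff.1 hU
    have h1 : IsOpen (h '' (V ∩ D)) := hopen _ inter_subset_right (hVo.inter hDo)
    have h2 : w ∈ h '' (V ∩ D) := ⟨t w, ⟨hV, htm hw⟩, hst w hw⟩
    refine mem_of_superset (h1.mem_nhds h2) ?_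
    rintro y ⟨z, ⟨hz1, hz2⟩, rfl⟩
    show t (h z) ∈ U
    rw [hts z hz2]
    exact hVU hz1
  refine ⟨t, hdiff, ?_, hmaps, htm, hts, hst⟩
  intro w hw
  have h1 : HasDerivAt h (deriv h (t w)) (t w) :=
    ((hdiff (t w) (htm hw)).differentiableAt (hDo.mem_nhds (htm hw))).hasDerivAt
  have h2 := HasDerivAt.of_local_left_inverse (htc w hw) h1 (hder _ (htm hw))
    (Filter.eventually_of_mem (hDo.mem_nhds hw) hst)
  exact h2.differentiableAt.differentiableWithinAt

end Pool.Agent.Y710.Adm
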