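import Pool.Agent.Y318.Adm.Stm

set_option autoImplicit false

/-!
# Moebius invariance of Reach (job 883, project Y318-ADM)
-/

open Metric Set Filter Topology

namespace Pool.Agent.Y710.Adm

open Pool.Agent.Y318.Adm

/-- the involution of the disc exchanging `0` and `a` -/
noncomputable def ph (a z : ℂ) : ℂ := (a - z) / (1 - (starRingEnd ℂ) a * z)

theorem normSq_id (a z : ℂ) : Complex.normSq (1 - (starRingEnd ℂ) a * z) - Complex.normSq (a - z) =
    (1 - Complex.normSq a) * (1 - Complex.normSq z) := by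
  simp only [Complex.normSq_apply, Complex.sub_re, Complex.sub_im, Complex.mul_re, Complex.mul_im,
    Complex.conj_re, Complex.conj_im, Complex.one_re, Complex.one_im]
  ring

theorem normSq_lt {a : ℂ} (ha : a ∈ ball (0:ℂ) 1) : Complex.normSq a < 1 := by
  rw [mem_ball_zero_iff] at ha
  rw [Complex.normSq_eq_norm_sq]
  nlinarith [norm_nonneg a]

theorem den_ne {a z : ℂ} (ha : a ∈ ball (0:ℂ) 1) (hz : z ∈ ball (0:ℂ) 1) :
    1 - (starRingEnd ℂ) a * z ≠ 0 := by
  intro h
  have h1 := normSq_id a z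
  rw [h, map_zero] at h1
  have h2 := normSq_lt ha
  have h3 := normSq_lt hz
  have h4 := Complex.normSq_nonneg (a - z)
  nlinarith [mul_pos (sub_pos.2 h2) (sub_pos.2 h3)]

theorem ph_mem {a z : ℂ} (ha : a ∈ ball (0:ℂ) 1) (hz : z ∈ ball (0:ℂ) 1) : ph a z ∈ ball (0:ℂ) 1 := by
  rw [mem_ball_zero_iff]
  unfold ph
  rw [norm_div, div_lt_one (norm_pos_iff.2 (den_ne ha hz))]
  have h1 := normSq_id a z
  have h2 := normSq_lt ha
  have h3 := normSq_lt hz
  have h4 : Complex.normSq (a - z) < Complex.normSq (1 - (starRingEnd ℂ) a * z) := by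
    nlinarith [mul_pos (sub_pos.2 h2) (sub_pos.2 h3)]
  rw [Complex.normSq_eq_norm_sq, Complex.normSq_eq_norm_sq] at h4
  exact lt_of_pow_lt_pow_left₀ 2 (norm_nonneg _) h4

theorem ph_diff {a : ℂ} (ha : a ∈ ball (0:ℂ) 1) : DifferentiableOn ℂ (ph a) (ball 0 1) := by
  unfold ph
  apply DifferentiableOn.div
  · fun_prop
  · fun_prop
  · intro z hz
    exact den_ne ha hz

theorem ph_ph {a z : ℂ} (ha : a ∈ ball (0:ℂ) 1) (hz : z ∈ ball (0:ℂ) 1) : ph a (ph a z) = z := by
  have h1 := den_ne ha hz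
  have h2 := den_ne ha (ph_mem ha hz)
  have hw : ph a z * (1 - (starRingEnd ℂ) a * z) = a - z := by
    unfold ph
    rw [div_mul_cancel₀ _ h1]
  show (a - ph a z) / (1 - (starRingEnd ℂ) a * ph a z) = z
  rw [div_eq_iff h2]
  linear_combination -hw

theorem ph_self (a : ℂ) : ph a a = 0 := by
  unfold ph
  rw [sub_self, zero_div]

theorem ph_zero (a : ℂ) : ph a 0 = a := by
  unfold ph
  rw [mul_zero, sub_zero, sub_zero, div_one]

theorem Om_comp {g ψ : ℂ → ℂ} (hg : Om g) (hd : DifferentiableOn ℂ ψ (ball 0 1))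
    (hm : MapsTo ψ (ball 0 1) (ball 0 1)) : Om (fun z => g (ψ z)) :=
  ⟨hg.1.comp hd hm, fun z hz => hg.2 _ (hm hz)⟩

theorem mob : S_MOB := by
  intro α a c ha hc hac
  have hden := den_ne ha hc
  have hρ : rho a c = ‖ph a c‖ := rfl
  have hpc := ph_mem ha hc
  have hρ1 : rho a c < 1 := by
    rw [hρ]
    exact mem_ball_zero_iff.1 hpc
  have hne : ph a c ≠ 0 := by
    unfold ph
    exact div_ne_zero (sub_ne_zero.2 hac) hden
  have hρ0 : 0 < rho a c := by
    rw [hρ]
    exact norm_pos_iff.2 hne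
  have hρc : ((rho a c : ℝ) : ℂ) ≠ 0 := by exact_mod_cast hρ0.ne'
  set u : ℂ := ph a c / (rho a c : ℝ) with hu
  have hu1 : ‖u‖ = 1 := by
    rw [hu, norm_div, Complex.norm_real, Real.norm_eq_abs, abs_of_pos hρ0, ← hρ, div_self hρ0.ne']
  have huρ : u * (rho a c : ℝ) = ph a c := by
    rw [hu, div_mul_cancel₀ _ hρc]
  have huu : (starRingEnd ℂ) u * u = 1 := by
    rw [mul_comm, Complex.mul_conj, Complex.normSq_eq_norm_sq, hu1]
    norm_num
  have hmu : ∀ z ∈ ball (0:ℂ) 1, u * z ∈ ball (0:ℂ) 1 := by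
    intro z hz
    rw [mem_ball_zero_iff] at hz ⊢
    rw [norm_mul, hu1, one_mul]
    exact hz
  have hmu' : ∀ z ∈ ball (0:ℂ) 1, (starRingEnd ℂ) u * z ∈ ball (0:ℂ) 1 := by
    intro z hz
    rw [mem_ball_zero_iff] at hz ⊢
    rw [norm_mul, RCLike.norm_conj, hu1, one_mul]
    exact hz
  constructor
  · rintro ⟨g, hg, hga, hgc⟩
    refine ⟨hρ0, hρ1, fun z => g (ph a (u * z)), ?_, ?_, ?_⟩
    · apply Om_comp hg
      · apply (ph_diff ha).comp (t := ball 0 1)
        · fun_prop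
        · exact hmu
      · intro z hz
        exact ph_mem ha (hmu z hz)
    · show g (ph a (u * 0)) = α
      rw [mul_zero, ph_zero, hga]
    · show g (ph a (u * ((rho a c : ℝ) : ℂ))) = -1
      rw [huρ, ph_ph ha hc, hgc]
  · rintro ⟨-, -, G, hG, hG0, hG1⟩
    refine ⟨fun z => G ((starRingEnd ℂ) u * ph a z), ?_, ?_, ?_⟩
    · apply Om_comp hG
      · exact (ph_diff ha).const_mul _
      · intro z hz
        exact hmu' _ (ph_mem ha hz)
    · show G ((starRingEnd ℂ) u * ph a a) = α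
      rw [ph_self, mul_zero, hG0]
    · show G ((starRingEnd ℂ) u * ph a c) = -1
      rw [← huρ, ← mul_assoc, huu, one_mul, hG1]

end Pool.Agent.Y710.Adm
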